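import Mathlib

/-!
# Hilbert cubes with distinct directions in dense subsets of a set of small doubling
-/

set_option autoImplicit false

namespace Pool.Agent.helper306_sumcol

open Finset
open scoped Pointwise

variable {G : Type*} [AddCommGroup G] [DecidableEq G]

/-- the points `w` of `W` with `w + d ∈ W` -/
def shiftInter (W : Finset G) (d : G) : Finset G := W.filter (fun w => w + d ∈ W)

theorem card_shiftInter_le (W : Finset G) (d : G) : (shiftInter W d).card ≤ W.card :=
  card_filter_le _ _

theorem sum_card_shiftInter {X W : Finset G} (hW : W ⊆ X) :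
    ∑ d ∈ X - X, (shiftInter W d).card = W.card * W.card := by
  rw [← card_product]
  rw [card_eq_sum_card_fiberwise (f := fun p : G × G => p.2 - p.1) (t := X - X)]
  · refine sum_congr rfl fun d _ => ?_
    refine card_bij (fun w _ => (w, w + d)) ?_ ?_ ?_
    · intro w hw
      rw [shiftInter, mem_filter] at hw
      rw [mem_filter, mem_product]
      exact ⟨⟨hw.1, hw.2⟩, by simp⟩
    · intro a _ b _ h
      exact (Prod.mk.inj h).1
    · rintro ⟨a, b⟩ h
      rw [mem_filter, mem_product] at h
      obtain ⟨⟨h1, h2⟩, h3⟩ := h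
      have h3' : b - a = d := h3
      have e : a + d = b := by rw [← h3']; abel
      refine ⟨a, ?_, ?_⟩
      · rw [shiftInter, mem_filter, e]
        exact ⟨h1, h2⟩
      · rw [e]
  · rintro ⟨a, b⟩ h
    have h' : (a, b) ∈ W ×ˢ W := h
    rw [mem_product] at h'
    exact sub_mem_sub (hW h'.2) (hW h'.1)

theorem exists_shift {X W D : Finset G} {L : ℕ} (hW : W ⊆ X) (hL : (X - X).card ≤ L)
    (hw : 2 * D.card < W.card) :
    ∃ d, d ∉ D ∧ (W.card : ℝ) ^ 2 ≤ 2 * L * (shiftInter W d).card := by
  by_contra hcon
  push Not at hcon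
  have hwpos : (0 : ℝ) < W.card := by
    have : 0 < W.card := by omega
    exact_mod_cast this
  have h1 : ((W.card : ℝ) * W.card) = ∑ d ∈ X - X, ((shiftInter W d).card : ℝ) := by
    have := sum_card_shiftInter hW
    exact_mod_cast this.symm
  have hLpos : (0 : ℝ) < L := by
    have hne : (X - X).Nonempty := by
      have : W.Nonempty := card_pos.1 (by omega)
      obtain ⟨w, hw'⟩ := this
      exact ⟨w - w, sub_mem_sub (hW hw') (hW hw')⟩
    have : 0 < (X - X).card := hne.card_pos
    exact_mod_cast lt_of_lt_of_le this hL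
  have h2 : ∑ d ∈ X - X, ((shiftInter W d).card : ℝ)
      ≤ ∑ d ∈ (X - X) ∩ D, ((shiftInter W d).card : ℝ)
        + ∑ d ∈ (X - X) \ D, ((shiftInter W d).card : ℝ) := by
    exact (sum_inter_add_sum_sdiff (X - X) D _).symm.le
  have h3 : ∑ d ∈ (X - X) ∩ D, ((shiftInter W d).card : ℝ) ≤ D.card * W.card := by
    calc ∑ d ∈ (X - X) ∩ D, ((shiftInter W d).card : ℝ)
        ≤ ∑ _d ∈ (X - X) ∩ D, (W.card : ℝ) :=
          sum_le_sum fun d _ => by exact_mod_cast card_shiftInter_le W d
      _ = ((X - X) ∩ D).card * (W.card : ℝ) := by rw [sum_const, nsmul_eq_mul]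
      _ ≤ D.card * W.card := by
          apply mul_le_mul_of_nonneg_right _ hwpos.le
          exact_mod_cast card_le_card inter_subset_right
  have h4 : ∑ d ∈ (X - X) \ D, ((shiftInter W d).card : ℝ) ≤ (W.card : ℝ) ^ 2 / 2 := by
    calc ∑ d ∈ (X - X) \ D, ((shiftInter W d).card : ℝ)
        ≤ ∑ _d ∈ (X - X) \ D, ((W.card : ℝ) ^ 2 / (2 * L)) := by
          refine sum_le_sum fun d hd => ?_
          rw [mem_sdiff] at hd
          rw [le_div_iff₀ (by positivity)]
          have := hcon d hd.2
          linarith
      _ = ((X - X) \ D).card * ((W.card : ℝ) ^ 2 / (2 * L)) := by rw [sum_const, nsmul_eq_mul]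
      _ ≤ L * ((W.card : ℝ) ^ 2 / (2 * L)) := by
          apply mul_le_mul_of_nonneg_right _ (by positivity)
          exact_mod_cast (card_le_card sdiff_subset).trans hL
      _ = (W.card : ℝ) ^ 2 / 2 := by
          field_simp
  have h5 : (2 : ℝ) * D.card < W.card := by exact_mod_cast hw
  nlinarith

/-- A set `W ⊆ X` that is not too small contains all sums `x + ∑_{i ∈ S} e i`, `S ⊆ {0, …, n - 1}`,
for some `x` and directions `e i` outside `D` that are pairwise incongruent modulo `H`. -/
theorem exists_cube {X H : Finset G} {L : ℕ} (hL : (X - X).card ≤ L)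
    (hneg : ∀ h ∈ H, -h ∈ H) (n : ℕ) : ∀ (D W : Finset G), W ⊆ X →
    2 * ((D.card : ℝ) + n * H.card) < ((W.card : ℝ) / (2 * L)) ^ (2 ^ n) * (2 * L) →
    ∃ (x : G) (e : Fin n → G), (∀ i, e i ∉ D) ∧ (∀ i j, i ≠ j → e i - e j ∉ H) ∧
      ∀ S : Finset (Fin n), x + ∑ i ∈ S, e i ∈ W := by
  induction n with
  | zero =>
    intro D W hW h
    have hWne : W.Nonempty := by
      rw [nonempty_iff_ne_empty]
      rintro rfl
      simp only [card_empty, Nat.cast_zero, zero_div, pow_zero, pow_one, zero_mul, add_zero] at h
      have : (0 : ℝ) ≤ D.card := Nat.cast_nonneg _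
      linarith
    obtain ⟨x, hx⟩ := hWne
    refine ⟨x, Fin.elim0, fun i => i.elim0, fun i => i.elim0, fun S => ?_⟩
    have : S = ∅ := Finset.eq_empty_of_isEmpty S
    rw [this, sum_empty, add_zero]
    exact hx
  | succ n ih =>
    intro D W hW h
    have hX : (0 : ℝ) ≤ D.card := Nat.cast_nonneg _
    have hHc : (0 : ℝ) ≤ H.card := Nat.cast_nonneg _
    have hwpos : 0 < W.card := by
      rw [Nat.pos_iff_ne_zero]
      intro h0
      rw [h0] at h
      simp only [Nat.cast_zero, zero_div] at h
      rw [zero_pow (by positivity), zero_mul] at h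
      have : (0 : ℝ) ≤ ((n + 1 : ℕ) : ℝ) * H.card := by positivity
      linarith
    have hwL : W.card ≤ L := by
      obtain ⟨w, hw⟩ := card_pos.1 hwpos
      refine le_trans ?_ hL
      refine card_le_card_of_injOn (fun y => y - w) ?_ ?_
      · intro y hy
        exact sub_mem_sub (hW hy) (hW hw)
      · intro a _ b _ hab
        exact sub_left_injective hab
    have hLpos : (0 : ℝ) < L := by exact_mod_cast lt_of_lt_of_le hwpos hwL
    set δ : ℝ := (W.card : ℝ) / (2 * L) with hδ
    have hδ0 : 0 ≤ δ := by positivity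
    have hδ1 : δ ≤ 1 := by
      rw [hδ, div_le_one (by positivity)]
      have : (W.card : ℝ) ≤ L := by exact_mod_cast hwL
      linarith
    have hδL : δ * (2 * L) = W.card := by
      rw [hδ]; field_simp
    have hlow : 2 * D.card < W.card := by
      have h1 : δ ^ (2 ^ (n + 1)) ≤ δ := by
        calc δ ^ (2 ^ (n + 1)) ≤ δ ^ 1 := pow_le_pow_of_le_one hδ0 hδ1 Nat.one_le_two_pow
          _ = δ := pow_one δ
      have h2 : δ ^ (2 ^ (n + 1)) * (2 * L) ≤ W.card := by
        rw [← hδL]
        exact mul_le_mul_of_nonneg_right h1 (by positivity)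
      have h3 : (2 : ℝ) * D.card < W.card := by
        have : (0 : ℝ) ≤ ((n + 1 : ℕ) : ℝ) * H.card := by positivity
        linarith
      exact_mod_cast h3
    obtain ⟨d, hdD, hd⟩ := exists_shift hW hL hlow
    set W' := shiftInter W d with hW'
    set D' := D ∪ H.image (fun h => d + h) with hD'
    have hW'X : W' ⊆ X := (filter_subset _ _).trans hW
    have hD'c : (D'.card : ℝ) ≤ D.card + H.card := by
      have : D'.card ≤ D.card + H.card :=
        (card_union_le _ _).trans (Nat.add_le_add_left card_image_le _)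
      exact_mod_cast this
    have hδ' : δ ^ 2 ≤ (W'.card : ℝ) / (2 * L) := by
      rw [le_div_iff₀ (by positivity)]
      have : δ ^ 2 * (2 * L) = (W.card : ℝ) ^ 2 / (2 * L) := by
        rw [hδ]; field_simp
      rw [this, div_le_iff₀ (by positivity)]
      linarith
    obtain ⟨x, e, h1, h2, h3⟩ := ih D' W' hW'X (by
      calc 2 * ((D'.card : ℝ) + n * H.card) ≤ 2 * ((D.card : ℝ) + (n + 1 : ℕ) * H.card) := by
            push_cast
            nlinarith
        _ < δ ^ (2 ^ (n + 1)) * (2 * L) := h
        _ = (δ ^ 2) ^ (2 ^ n) * (2 * L) := by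
            rw [← pow_mul, pow_succ, mul_comm (2 ^ n) 2]
        _ ≤ ((W'.card : ℝ) / (2 * L)) ^ (2 ^ n) * (2 * L) := by
            apply mul_le_mul_of_nonneg_right _ (by positivity)
            exact pow_le_pow_left₀ (by positivity) hδ' _)
    refine ⟨x, Fin.cons d e, ?_, ?_, ?_⟩
    · intro i
      refine Fin.cases ?_ ?_ i
      · simpa using hdD
      · intro j
        rw [Fin.cons_succ]
        exact fun hj => h1 j (mem_union_left _ hj)
    · have key : ∀ j, e j - d ∉ H := by
        intro j hj
        apply h1 j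
        apply mem_union_right
        rw [mem_image]
        exact ⟨e j - d, hj, by abel⟩
      intro i j
      refine Fin.cases ?_ (fun i' => ?_) i
      · refine Fin.cases ?_ (fun j' => ?_) j
        · intro h; exact absurd rfl h
        · intro _
          rw [Fin.cons_zero, Fin.cons_succ]
          intro hh
          have := hneg _ hh
          rw [neg_sub] at this
          exact key j' this
      · refine Fin.cases ?_ (fun j' => ?_) j
        · intro _
          rw [Fin.cons_zero, Fin.cons_succ]
          exact key i'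
        · intro hij
          rw [Fin.cons_succ, Fin.cons_succ]
          exact h2 i' j' (fun hh => hij (by rw [hh]))
    · intro S
      have hsum : ∑ i ∈ S, (Fin.cons d e : Fin (n + 1) → G) i
          = (if (0 : Fin (n + 1)) ∈ S then d else 0)
            + ∑ i ∈ univ.filter (fun i : Fin n => i.succ ∈ S), e i := by
        rw [← Finset.univ_inter S, ← Finset.sum_ite_mem, Fin.sum_univ_succ, sum_filter]
        simp only [Fin.cons_zero, Fin.cons_succ, univ_inter]
      rw [hsum]
      have hmem := h3 (univ.filter (fun i : Fin n => i.succ ∈ S))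
      rw [hW', shiftInter, mem_filter] at hmem
      split_ifs with h0
      · have : x + (d + ∑ i ∈ univ.filter (fun i : Fin n => i.succ ∈ S), e i)
            = x + ∑ i ∈ univ.filter (fun i : Fin n => i.succ ∈ S), e i + d := by abel
        rw [this]
        exact hmem.2
      · rw [zero_add]
        exact hmem.1

end Pool.Agent.helper306_sumcol
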