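import Pool.Agent.helper306_sumcol.Cube

/-!
# Colourings of `r`-sets that only depend on the sum
-/

set_option autoImplicit false

namespace Pool.Agent.helper306_sumcol

open Finset
open scoped Pointwise

/-- the sums of `r` of the points `x + r • e i` are `r • y`, `y` in the cube of `x` and `e` -/
theorem sum_points {G : Type*} [AddCommGroup G] {n : ℕ} (r : ℕ) (x : G) (e : Fin n → G) (I : Finset (Fin n))
    (hI : I.card = r) : ∑ i ∈ I, (x + r • e i) = r • (x + ∑ i ∈ I, e i) := by
  rw [sum_add_distrib, sum_const, hI, smul_add, smul_sum]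

/-- one of `k` colours has at least the proportion `1 / k` -/
theorem exists_big_class {α : Type*} (X : Finset α) (hX : X.Nonempty) {k : ℕ} (f : α → Fin k) :
    ∃ a : Fin k, X.card ≤ k * (X.filter (fun y => f y = a)).card := by
  by_contra hcon
  push Not at hcon
  have h1 : X.card = ∑ a : Fin k, (X.filter (fun y => f y = a)).card :=
    card_eq_sum_card_fiberwise (fun _ _ => mem_coe.2 (mem_univ _))
  obtain ⟨x, -⟩ := hX
  have hk : 0 < k := lt_of_le_of_lt (Nat.zero_le _) (f x).2
  have h2 : ∑ a : Fin k, k * (X.filter (fun y => f y = a)).card < ∑ _a : Fin k, X.card := by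
    apply sum_lt_sum_of_nonempty
    · exact ⟨⟨0, hk⟩, mem_univ _⟩
    · intro a _
      exact hcon a
  rw [← mul_sum, ← h1, sum_const, card_univ, Fintype.card_fin, smul_eq_mul] at h2
  exact lt_irrefl _ h2

variable {G : Type*} [AddCommGroup G] [DecidableEq G]

/-- an injective family of points, and a colour for all sums of `r` of its points -/
theorem exists_family {X H : Finset G} {L : ℕ} (hL : (X - X).card ≤ L) (hX : X.Nonempty)
    (hneg : ∀ h ∈ H, -h ∈ H) (r n : ℕ) {k : ℕ} (χ : G → Fin k)
    (h : 2 * ((n : ℝ) * H.card) < ((X.card : ℝ) / (2 * k * L)) ^ (2 ^ n) * (2 * L)) :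
    ∃ (x : G) (e : Fin n → G) (a : Fin k), x ∈ X ∧ (∀ i, x + e i ∈ X) ∧
      (∀ i j, i ≠ j → e i - e j ∉ H) ∧
      ∀ I : Finset (Fin n), I.card = r → χ (∑ i ∈ I, (x + r • e i)) = a := by
  obtain ⟨a, ha⟩ := exists_big_class X hX (fun y => χ (r • y))
  have hk : 0 < k := lt_of_le_of_lt (Nat.zero_le _) a.2
  have hkR : (0 : ℝ) < k := by exact_mod_cast hk
  set W := X.filter (fun y => χ (r • y) = a) with hW
  have hWX : W ⊆ X := filter_subset _ _
  have hLpos : (0 : ℝ) < L := by
    have hne : (X - X).Nonempty := by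
      obtain ⟨w, hw'⟩ := hX
      exact ⟨w - w, sub_mem_sub hw' hw'⟩
    have : 0 < (X - X).card := hne.card_pos
    exact_mod_cast lt_of_lt_of_le this hL
  obtain ⟨x, e, -, h2, h3⟩ := exists_cube (X := X) (H := H) hL hneg n ∅ W hWX (by
    rw [card_empty, Nat.cast_zero, zero_add]
    refine h.trans_le ?_
    apply mul_le_mul_of_nonneg_right _ (by positivity)
    apply pow_le_pow_left₀ (by positivity)
    rw [div_le_div_iff₀ (by positivity) (by positivity)]
    have : (X.card : ℝ) ≤ k * W.card := by exact_mod_cast ha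
    nlinarith)
  refine ⟨x, e, a, ?_, ?_, h2, ?_⟩
  · have := h3 ∅
    rw [sum_empty, add_zero] at this
    exact hWX this
  · intro i
    have := h3 {i}
    rw [sum_singleton] at this
    exact hWX this
  · intro I hI
    rw [sum_points r x e I hI]
    have := h3 I
    rw [hW, mem_filter] at this
    exact this.2

/-- finite abelian groups -/
theorem group_version (G : Type*) [AddCommGroup G] [Fintype G] [DecidableEq G] (r n k : ℕ)
    (χ : G → Fin k)
    (hG : n * (univ.filter (fun h : G => r • h = 0)).card * (2 * k) ^ (2 ^ n) < Fintype.card G) :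
    ∃ A : Finset G, A.card = n ∧ ∃ a : Fin k, ∀ S ⊆ A, S.card = r → χ (∑ v ∈ S, v) = a := by
  classical
  set H := univ.filter (fun h : G => r • h = 0) with hH
  have hne : (univ : Finset G).Nonempty := univ_nonempty
  have hk : 0 < k := lt_of_le_of_lt (Nat.zero_le _) (χ 0).2
  have hkR : (0 : ℝ) < k := by exact_mod_cast hk
  have hGpos : (0 : ℝ) < Fintype.card G := by exact_mod_cast Fintype.card_pos
  obtain ⟨x, e, a, -, -, h2, h3⟩ := exists_family (X := (univ : Finset G)) (H := H)
    (L := Fintype.card G) (card_le_univ _) hne (by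
      intro h hh
      rw [hH, mem_filter] at hh ⊢
      refine ⟨mem_univ _, ?_⟩
      rw [smul_neg, hh.2, neg_zero]) r n χ (by
      rw [card_univ]
      have e1 : (Fintype.card G : ℝ) / (2 * k * Fintype.card G) = 1 / (2 * k) := by
        field_simp
      rw [e1, div_pow, one_pow]
      have h1 : ((n : ℝ) * H.card * (2 * k) ^ (2 ^ n)) < Fintype.card G := by exact_mod_cast hG
      have h4 : (0 : ℝ) < (2 * (k : ℝ)) ^ (2 ^ n) := by positivity
      rw [div_mul_eq_mul_div, one_mul, lt_div_iff₀ h4]
      linarith)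
  have hinj : Function.Injective (fun i => x + r • e i) := by
    intro i j hij
    by_contra hne'
    apply h2 i j hne'
    rw [hH, mem_filter]
    refine ⟨mem_univ _, ?_⟩
    have : x + r • e i = x + r • e j := hij
    rw [smul_sub, sub_eq_zero]
    exact add_left_cancel this
  refine ⟨univ.image (fun i => x + r • e i), ?_, a, ?_⟩
  · rw [card_image_of_injective _ hinj, card_univ, Fintype.card_fin]
  · intro S hS hSr
    have e1 : S = (univ.filter (fun i => x + r • e i ∈ S)).image (fun i => x + r • e i) := by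
      ext v
      rw [mem_image]
      constructor
      · intro hv
        obtain ⟨i, -, hi⟩ := mem_image.1 (hS hv)
        refine ⟨i, ?_, hi⟩
        rw [mem_filter]
        exact ⟨mem_univ _, by rw [hi]; exact hv⟩
      · rintro ⟨i, hi, rfl⟩
        exact (mem_filter.1 hi).2
    have e2 : (univ.filter (fun i => x + r • e i ∈ S)).card = r := by
      have e3 := card_image_of_injective (univ.filter (fun i => x + r • e i ∈ S)) hinj
      rw [← e1, hSr] at e3
      exact e3.symm
    have h7 := h3 _ e2
    have h8 : ∑ v ∈ S, v = ∑ i ∈ univ.filter (fun i => x + r • e i ∈ S), (x + r • e i) := by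
      conv_lhs => rw [e1]
      rw [sum_image (fun i _ j _ h => hinj h)]
    rw [h8, h7]

/-- intervals -/
theorem interval_version (r n k N : ℕ) (hr : 1 ≤ r) (hk : 1 ≤ k)
    (hN : (2 * r + 1) * ((n + 1) * (4 * k) ^ (2 ^ n)) ≤ N) (χ : ℕ → Fin k) :
    ∃ A ⊆ Icc 1 N, A.card = n ∧ ∃ a : Fin k, ∀ S ⊆ A, S.card = r → χ (∑ v ∈ S, v) = a := by
  classical
  set M : ℕ := (n + 1) * (4 * k) ^ (2 ^ n) with hM
  have hMpos : 0 < M := by positivity
  have hkR : (0 : ℝ) < k := by exact_mod_cast hk
  set X : Finset ℤ := Finset.Ico ((r : ℤ) * M) (r * M + M) with hXdef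
  have hXcard : X.card = M := by
    rw [hXdef, Int.card_Ico]; simp
  have hXX : (X - X).card ≤ 2 * M := by
    have h1 : X - X ⊆ Finset.Ico (-(M : ℤ)) M := by
      intro z hz
      obtain ⟨a, ha, b, hb, rfl⟩ := mem_sub.1 hz
      rw [hXdef, Finset.mem_Ico] at ha hb
      rw [Finset.mem_Ico]
      constructor <;> linarith [ha.1, ha.2, hb.1, hb.2]
    refine (card_le_card h1).trans ?_
    rw [Int.card_Ico]
    omega
  have hXne : X.Nonempty := by
    rw [← card_pos, hXcard]; exact hMpos
  have hMR : (0 : ℝ) < M := by exact_mod_cast hMpos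
  obtain ⟨x, e, a, hx, hxe, h2, h3⟩ := exists_family (X := X) (H := {0}) (L := 2 * M) hXX hXne
    (by
      intro h hh
      rw [mem_singleton] at hh ⊢
      rw [hh, neg_zero]) r n (fun z : ℤ => χ z.toNat) (by
      rw [hXcard, card_singleton]
      push_cast
      have e1 : (M : ℝ) / (2 * k * (2 * M)) = 1 / (4 * k) := by
        field_simp; ring
      rw [e1, div_pow, one_pow]
      have h4 : (0 : ℝ) < (4 * (k : ℝ)) ^ (2 ^ n) := by positivity
      rw [div_mul_eq_mul_div, one_mul, lt_div_iff₀ h4]
      have h5 : (M : ℝ) = (n + 1) * (4 * k) ^ (2 ^ n) := by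
        rw [hM]; push_cast; ring
      rw [h5]
      nlinarith)
  rw [hXdef, Finset.mem_Ico] at hx
  have hxe' : ∀ i, (r : ℤ) * M ≤ x + e i ∧ x + e i < r * M + M := by
    intro i
    have := hxe i
    rw [hXdef, Finset.mem_Ico] at this
    exact this
  have hrZ : (1 : ℤ) ≤ r := by exact_mod_cast hr
  have hlow : ∀ i, (1 : ℤ) ≤ x + r • e i := by
    intro i
    have h4 := (hxe' i).1
    rw [nsmul_eq_mul]
    have h5 : -(M : ℤ) + 1 ≤ e i := by linarith [hx.2]
    nlinarith [hx.1]
  have hupp : ∀ i, x + r • e i ≤ N := by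
    intro i
    have h4 := (hxe' i).2
    rw [nsmul_eq_mul]
    have h5 : e i ≤ M := by linarith [hx.1]
    have h6 : ((2 * r + 1) * M : ℤ) ≤ N := by
      have : (2 * r + 1) * M ≤ N := hN
      exact_mod_cast this
    nlinarith [hx.2]
  set φ : Fin n → ℕ := fun i => (x + r • e i).toNat with hφ
  have hφc : ∀ i, ((φ i : ℕ) : ℤ) = x + r • e i := by
    intro i
    exact Int.toNat_of_nonneg (by linarith [hlow i])
  have hinj : Function.Injective φ := by
    intro i j hij
    by_contra hne'
    apply h2 i j hne'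
    rw [mem_singleton]
    have h4 : x + r • e i = x + r • e j := by rw [← hφc, ← hφc, hij]
    have h5 : r • e i = r • e j := add_left_cancel h4
    rw [nsmul_eq_mul, nsmul_eq_mul] at h5
    have h6 : e i = e j := mul_left_cancel₀ (by positivity) h5
    rw [h6, sub_self]
  refine ⟨univ.image φ, ?_, ?_, a, ?_⟩
  · intro v hv
    obtain ⟨i, -, rfl⟩ := mem_image.1 hv
    rw [Finset.mem_Icc]
    constructor
    · have := hlow i
      rw [← hφc] at this
      exact_mod_cast this
    · have := hupp i
      rw [← hφc] at this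
      exact_mod_cast this
  · rw [card_image_of_injective _ hinj, card_univ, Fintype.card_fin]
  · intro S hS hSr
    have e1 : S = (univ.filter (fun i => φ i ∈ S)).image φ := by
      ext v
      rw [mem_image]
      constructor
      · intro hv
        obtain ⟨i, -, hi⟩ := mem_image.1 (hS hv)
        refine ⟨i, ?_, hi⟩
        rw [mem_filter]
        exact ⟨mem_univ _, by rw [hi]; exact hv⟩
      · rintro ⟨i, hi, rfl⟩
        exact (mem_filter.1 hi).2
    have e2 : (univ.filter (fun i => φ i ∈ S)).card = r := by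
      have e3 := card_image_of_injective (univ.filter (fun i => φ i ∈ S)) hinj
      rw [← e1, hSr] at e3
      exact e3.symm
    have h7 := h3 _ e2
    have h8 : (∑ i ∈ univ.filter (fun i => φ i ∈ S), (x + r • e i)).toNat = ∑ v ∈ S, v := by
      have : (∑ i ∈ univ.filter (fun i => φ i ∈ S), (x + r • e i))
          = ((∑ v ∈ S, v : ℕ) : ℤ) := by
        conv_rhs => rw [e1]
        rw [sum_image (fun i _ j _ h => hinj h)]
        push_cast
        exact sum_congr rfl fun i _ => (hφc i).symm
      rw [this, Int.toNat_natCast]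
    rw [← h7, ← h8]

end Pool.Agent.helper306_sumcol
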